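import Pool.Agent.Helper23.LW.Spec

/-!
# Images of log complete intersections in weighted projective spaces: assembly
-/

set_option autoImplicit false

namespace Pool.Agent.Helper23.LW

open MvPolynomial Pool.Agent.H734R3.GGL

variable {N : ℕ}

theorem zcl_mono (X : Set (PN N)) {A B : Set (PN N)} (h : A ⊆ B) : zcl X A ⊆ zcl X B :=
  fun _ hx => ⟨hx.1, fun m G hG hB => hx.2 m G hG fun a ha => hB a (h ha)⟩

theorem zcl_full {X A B : Set (PN N)} (hX : zcl X A = X) (h : A ⊆ B) : zcl X B = X :=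
  Set.Subset.antisymm (fun _ hx => hx.1) fun x hx => zcl_mono X h (by rwa [hX])

theorem asm (hM : St_MOR) (hS : St_SPC) (N : ℕ) (X : Set (PN N)) :
    (∀ x, OnImage X x → x ∈ gmPoints X ∧ x ∈ holPoints X ∧ x ∈ essPoints X) ∧
    (zcl X {x | OnImage X x} = X → SpGm X = X ∧ SpH X = X ∧ SpP X = X) := by
  have h : ∀ x, OnImage X x → x ∈ gmPoints X ∧ x ∈ holPoints X ∧ x ∈ essPoints X :=
    fun x hx => hS N X x (hM N X x hx)
  exact ⟨h, fun hX => ⟨zcl_full hX fun x hx => (h x hx).1, zcl_full hX fun x hx => (h x hx).2.1,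
    zcl_full hX fun x hx => (h x hx).2.2⟩⟩

end Pool.Agent.Helper23.LW
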