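import Pool.Graph.R_pool_sql_team_seeded_b3bd081e.H734R3.GGL.Curves

/-!
# Images of log complete intersections in weighted projective spaces: definitions

`PN N` (complex projective space), `zcl` (Zariski closure in `X`), `gmPoints`, `holPoints`, `essPoints`
(the unions of the images of the non-constant morphisms from `G_m`, of the non-constant holomorphic maps
from `ℂ`, and of the holomorphic maps from the punctured disc with an essential singularity) and `SpGm`,
`SpH`, `SpP` (their Zariski closures in `X`) are the definitions of `Pool.Agent.H734R3.GGL`.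
-/

set_option autoImplicit false

namespace Pool.Agent.Helper23.LW

open MvPolynomial Pool.Agent.H734R3.GGL

/-- The action of the multiplicative group which defines the weighted projective space with the
weights `w`. -/
def wsc {M : ℕ} (w : Fin M → ℕ) (l : ℂ) (R : Fin M → ℂ) : Fin M → ℂ := fun i => l ^ w i * R i

/-- The cone over the quasi-projective variety `{H 1 = ⋯ = H s = 0} \ {G = 0}` in the weighted projective
space. -/
def Cone {M s : ℕ} (H : Fin s → MvPolynomial (Fin M) ℂ) (G : MvPolynomial (Fin M) ℂ) :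
    Set (Fin M → ℂ) :=
  {P | (∀ j, eval P (H j) = 0) ∧ eval P G ≠ 0}

/-- The point `x` lies on the image, contained in `X`, of a quasi-finite morphism `Φ` from a pair of
nonnegative index: there are weights `w i > 0`, weighted homogeneous polynomials `H j` of degrees `D j`
and `G` of degree `b ≥ 2`, with `∑ D j + b ≤ ∑ w i`, and a morphism `Φ` from the variety
`{H j = 0} \ {G = 0}` in the weighted projective space to `X`, given by weighted homogeneous polynomials of
the same degree without common zeros on the variety, with finite fibres, and `x = Φ P` for a point `P`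
with a coordinate `P i ≠ 0` such that `b` does not divide `w i`. -/
def OnImage {N : ℕ} (X : Set (PN N)) (x : PN N) : Prop :=
  ∃ (M s : ℕ) (w : Fin M → ℕ) (H : Fin s → MvPolynomial (Fin M) ℂ) (D : Fin s → ℕ)
    (G : MvPolynomial (Fin M) ℂ) (b : ℕ) (Φ : Fin (N + 1) → MvPolynomial (Fin M) ℂ) (δ : ℕ)
    (hΦ : ∀ P ∈ Cone H G, (fun l => eval P (Φ l)) ≠ 0) (P : Fin M → ℂ) (hP : P ∈ Cone H G),
    (∀ i, 0 < w i) ∧ (∀ j, IsWeightedHomogeneous w (H j) (D j)) ∧
    IsWeightedHomogeneous w G b ∧ 2 ≤ b ∧ (∀ l, IsWeightedHomogeneous w (Φ l) δ) ∧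
    ∑ j, D j + b ≤ ∑ i, w i ∧ (∃ i, P i ≠ 0 ∧ ¬ b ∣ w i) ∧
    (∀ Q (hQ : Q ∈ Cone H G), Projectivization.mk ℂ (fun l => eval Q (Φ l)) (hΦ Q hQ) ∈ X) ∧
    (∀ y : PN N, ∃ S : Finset (Fin M → ℂ), ∀ Q (hQ : Q ∈ Cone H G),
      Projectivization.mk ℂ (fun l => eval Q (Φ l)) (hΦ Q hQ) = y →
        ∃ R ∈ S, ∃ l : ℂ, l ≠ 0 ∧ Q = wsc w l R) ∧
    Projectivization.mk ℂ (fun l => eval P (Φ l)) (hΦ P hP) = x

/-- There is a non-constant morphism from `G_m` to `X` which maps `1` to `x`. -/
def Mor {N : ℕ} (X : Set (PN N)) (x : PN N) : Prop :=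
  ∃ (q : Fin (N + 1) → Polynomial ℂ) (hq : ∀ t : ℂ, t ≠ 0 → (fun i => (q i).eval t) ≠ 0),
    (∀ (t : ℂ) (ht : t ≠ 0), Projectivization.mk ℂ (fun i => (q i).eval t) (hq t ht) ∈ X) ∧
    (∃ (s t : ℂ) (hs : s ≠ 0) (ht : t ≠ 0),
      Projectivization.mk ℂ (fun i => (q i).eval s) (hq s hs) ≠
      Projectivization.mk ℂ (fun i => (q i).eval t) (hq t ht)) ∧
    Projectivization.mk ℂ (fun i => (q i).eval 1) (hq 1 one_ne_zero) = x

end Pool.Agent.Helper23.LW
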