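import Pool.Agent.Helper23.LW.Defs

/-!
# Images of log complete intersections in weighted projective spaces: statements of the parts
-/

set_option autoImplicit false

namespace Pool.Agent.Helper23.LW

open MvPolynomial Pool.Agent.H734R3.GGL

/-- ZER (80): weighted homogeneous polynomials, fewer than the unknowns, have a common zero `≠ 0`.
Substitute `z a = y a ^ (u a)`: the polynomials become homogeneous of degree `d j > 0` in `y`; then the
projective dimension theorem, as in `H734R3/GGL/Lines.lean`, proof of `exists_line`. -/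
def St_ZER : Prop :=
  ∀ (κ J : Type) [Fintype κ] [Fintype J] (u : κ → ℕ), (∀ a, 0 < u a) →
    ∀ (E : J → MvPolynomial κ ℂ) (d : J → ℕ), (∀ j, 0 < d j) →
    (∀ j, IsWeightedHomogeneous u (E j) (d j)) → Fintype.card J < Fintype.card κ →
    ∃ z : κ → ℂ, z ≠ 0 ∧ ∀ j, eval z (E j) = 0

/-- GRD (100): substitute `x i = P i + ∑_{k < w i} z (i, k) X ^ (k + 1)`: the coefficient of `X ^ k` is
weighted homogeneous of weight `k` in the unknowns `z (i, k)` (of weight `k + 1`), and it is `0` for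
`k > D` if the polynomial is weighted homogeneous of degree `D`. -/
def St_GRD : Prop :=
  ∀ (M : ℕ) (w : Fin M → ℕ) (H : MvPolynomial (Fin M) ℂ) (D : ℕ),
    IsWeightedHomogeneous w H D → ∀ P : Fin M → ℂ,
    ∃ E : ℕ → MvPolynomial (Σ i : Fin M, Fin (w i)) ℂ,
      (∀ k, IsWeightedHomogeneous (fun a => (a.2 : ℕ) + 1) (E k) k) ∧ (∀ k, D < k → E k = 0) ∧
      E 0 = C (eval P H) ∧
      ∀ (z : (Σ i : Fin M, Fin (w i)) → ℂ) (k : ℕ),
        (aeval (fun i => Polynomial.C (P i) +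
          ∑ l : Fin (w i), Polynomial.C (z ⟨i, l⟩) * Polynomial.X ^ ((l : ℕ) + 1)) H :
            Polynomial ℂ).coeff k = eval z (E k)

/-- CRV (80, from ZER and GRD): the curve through `P`. -/
def St_CRV : Prop :=
  ∀ (M s : ℕ) (w : Fin M → ℕ) (H : Fin s → MvPolynomial (Fin M) ℂ) (D : Fin s → ℕ)
    (G : MvPolynomial (Fin M) ℂ) (b : ℕ), (∀ j, IsWeightedHomogeneous w (H j) (D j)) →
    IsWeightedHomogeneous w G b → 1 ≤ b → ∑ j, D j + b ≤ ∑ i, w i →
    ∀ P : Fin M → ℂ, (∀ j, eval P (H j) = 0) → eval P G ≠ 0 →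
    ∃ (c : Fin M → Polynomial ℂ) (γ : ℂ), (∀ i, (c i).eval 0 = P i) ∧
      (∃ i, c i ≠ Polynomial.C (P i)) ∧ (∀ j, (aeval c (H j) : Polynomial ℂ) = 0) ∧
      (aeval c G : Polynomial ℂ) =
        Polynomial.C (eval P G) * (1 + Polynomial.C γ * Polynomial.X)

/-- NCT (80): the curve passes only finitely often through each point of the weighted projective
space. (If it passes infinitely often through `R` then `c i ^ b = A i * (1 + γ X) ^ (w i)`.) -/
def St_NCT : Prop :=
  ∀ (M : ℕ) (w : Fin M → ℕ) (G : MvPolynomial (Fin M) ℂ) (b : ℕ), (∀ i, 0 < w i) →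
    IsWeightedHomogeneous w G b → 2 ≤ b → ∀ (c : Fin M → Polynomial ℂ) (γ g : ℂ), g ≠ 0 →
    (aeval c G : Polynomial ℂ) = Polynomial.C g * (1 + Polynomial.C γ * Polynomial.X) →
    (∃ i, (c i).eval 0 ≠ 0 ∧ ¬ b ∣ w i) → (∃ i, c i ≠ Polynomial.C ((c i).eval 0)) →
    ∀ R : Fin M → ℂ, {t : ℂ | ∃ l : ℂ, l ≠ 0 ∧ (fun i => (c i).eval t) = wsc w l R}.Finite

/-- MOR (100, from CRV and NCT): the morphism from `G_m`; `q l = Φ l (c (τ))` with `τ = t - 1` if
`γ = 0` and `τ = (t - 1) / γ` otherwise. -/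
def St_MOR : Prop :=
  ∀ (N : ℕ) (X : Set (PN N)) (x : PN N), OnImage X x → Mor X x

/-- SPC (50): copy the proofs of `gm_of`, `hol_of`, `ess_of` in `H734R3/GGL/Curves.lean`. -/
def St_SPC : Prop :=
  ∀ (N : ℕ) (X : Set (PN N)) (x : PN N), Mor X x →
    x ∈ gmPoints X ∧ x ∈ holPoints X ∧ x ∈ essPoints X

end Pool.Agent.Helper23.LW
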