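import Pool.Agent.Helper23.LW.Defs
import Pool.Agent.Helper23.LW.Spec

/-!
# Part SPC (the proofs are those of `Pool.Agent.H734R3.GGL`)
-/

set_option autoImplicit false

namespace Pool.Agent.Helper23.LW.SPC

open MvPolynomial Metric Set Pool.Agent.H734R3.GGL

variable {N : ℕ}

theorem gm_of {X : Set (PN N)} {x : PN N} (hx : Mor X x) : x ∈ gmPoints X := by
  obtain ⟨q, hq, h1, ⟨s, t, hs, ht, hst⟩, h3⟩ := hx
  classical
  refine ⟨fun t => if ht : t ≠ 0 then Projectivization.mk ℂ _ (hq t ht) else x, ?_, ?_, ?_, ?_⟩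
  · refine ⟨q, fun t ht => ⟨hq t ht, ?_⟩⟩
    simp only [dif_pos ht]
  · intro t ht
    simp only [dif_pos ht]
    exact h1 t ht
  · refine ⟨s, t, hs, ht, ?_⟩
    simp only [dif_pos hs, dif_pos ht]
    exact hst
  · refine ⟨1, one_ne_zero, ?_⟩
    simp only [dif_pos (one_ne_zero : (1:ℂ) ≠ 0)]
    exact h3

theorem hol_of {X : Set (PN N)} {x : PN N} (hx : Mor X x) : x ∈ holPoints X := by
  obtain ⟨q, hq, h1, ⟨s, t, hs, ht, hst⟩, h3⟩ := hx
  refine ⟨fun z => Projectivization.mk ℂ _ (hq (Complex.exp z) (Complex.exp_ne_zero z)),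
    ?_, ?_, ?_, ?_⟩
  · intro z _
    refine ⟨1, fun z i => (q i).eval (Complex.exp z), one_pos, ?_, ?_⟩
    · apply Differentiable.differentiableOn
      rw [differentiable_pi]
      intro i
      exact (q i).differentiable.comp Complex.differentiable_exp
    · intro w _ _
      exact ⟨hq _ (Complex.exp_ne_zero w), rfl⟩
  · intro z
    exact h1 _ (Complex.exp_ne_zero z)
  · refine ⟨Complex.log s, Complex.log t, ?_⟩
    intro h
    apply hst
    rw [mk_eq_mk_cross] at h ⊢
    rw [Complex.exp_log hs, Complex.exp_log ht] at h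
    exact h
  · refine ⟨0, ?_⟩
    rw [← h3, mk_eq_mk_cross]
    intro i j
    rw [Complex.exp_zero]
    ring

theorem ess_of {X : Set (PN N)} {x : PN N} (hx : Mor X x) : x ∈ essPoints X := by
  obtain ⟨q, hq, h1, ⟨s, t, hs, ht, hst⟩, h3⟩ := hx
  refine ⟨fun z => Projectivization.mk ℂ _ (hq (Complex.exp (1 / z)) (Complex.exp_ne_zero _)),
    ?_, ?_, ?_, ?_⟩
  · intro z hz
    have hz0 : z ≠ 0 := hz.2
    refine ⟨‖z‖, fun z i => (q i).eval (Complex.exp (1 / z)), norm_pos_iff.2 hz0, ?_, ?_⟩
    · rw [differentiableOn_pi]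
      intro i w hw
      have hw0 : w ≠ 0 := by
        rintro rfl
        simp at hw
      have h4 : DifferentiableAt ℂ (fun z : ℂ => Complex.exp (1 / z)) w := by
        have : DifferentiableAt ℂ (fun z : ℂ => 1 / z) w := by
          simp only [one_div]
          exact differentiableAt_inv hw0
        exact this.cexp
      have h5 : DifferentiableAt ℂ (fun z : ℂ => (q i).eval (Complex.exp (1 / z))) w :=
        ((q i).differentiable.differentiableAt).comp w h4
      exact h5.differentiableWithinAt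
    · intro w _ _
      exact ⟨hq _ (Complex.exp_ne_zero _), rfl⟩
  · intro z _
    exact h1 _ (Complex.exp_ne_zero _)
  · rintro ⟨g, hg, hgf⟩
    obtain ⟨r, F, hr, hFd, hF⟩ := hg 0 (mem_ball_self one_pos)
    obtain ⟨hF0, hg0⟩ := hF 0 (mem_ball_self hr) (mem_ball_self one_pos)
    have key : ∀ (a : ℂ) (ha : a ≠ 0),
        Projectivization.mk ℂ (fun i => (q i).eval a) (hq a ha) =
          Projectivization.mk ℂ (F 0) hF0 := by
      intro a ha
      obtain ⟨u, hu1, hu2, hu3⟩ := exists_seq a ha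
      rw [mk_eq_mk_cross]
      intro i j
      have hcont : ∀ i, ContinuousAt (fun z => F z i) 0 := by
        intro i
        have h4 : DifferentiableAt ℂ F 0 := hFd.differentiableAt (ball_mem_nhds 0 hr)
        exact (differentiableAt_pi.1 h4 i).continuousAt
      have hlim : ∀ i, Filter.Tendsto (fun n => F (u n) i) Filter.atTop (nhds (F 0 i)) :=
        fun i => (hcont i).tendsto.comp hu3
      have hev : ∀ᶠ n in Filter.atTop, (q i).eval a * F (u n) j = (q j).eval a * F (u n) i := by
        filter_upwards [hu3 (ball_mem_nhds 0 hr)] with n hn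
        have hn' : u n ∈ ball (0:ℂ) 1 := (hu1 n).1
        obtain ⟨h4, h5⟩ := hF (u n) hn hn'
        rw [hgf _ (hu1 n), mk_eq_mk_cross] at h5
        have := h5 i j
        rw [hu2 n] at this
        exact this
      exact tendsto_nhds_unique_of_eventuallyEq ((hlim j).const_mul _) ((hlim i).const_mul _) hev
    exact hst ((key s hs).trans (key t ht).symm)
  · obtain ⟨u, hu1, hu2, -⟩ := exists_seq 1 one_ne_zero
    refine ⟨u 0, hu1 0, ?_⟩
    rw [← h3, mk_eq_mk_cross]
    intro i j
    rw [hu2 0]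
    ring


theorem main : St_SPC := fun _ _ _ h => ⟨gm_of h, hol_of h, ess_of h⟩

end Pool.Agent.Helper23.LW.SPC
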